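import Pool.Agent.H86.CM.FinalPlus

/-!
# Two-colour competition on the configuration model: coexistence for equal Malthusian parameters

Question Q2 of `MP_8afce0_pr`.  The degrees are i.i.d. with a regularly varying tail of exponent
`τ - 1 > 2` and `ν > 1`; the two colours have arbitrary continuous nonnegative weight laws with the
same Malthusian parameter.  Given that both sources are in the largest component, asymptotic
coexistence holds.  Colours are Booleans, `true` is red and `false` is blue.
-/

open MeasureTheory ProbabilityTheory Filter Topology Pool.Agent.H86.CM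

namespace Pool.Agent.Results.MP_8afce0_pr.Coexistence

/-- **Asymptotic coexistence.**  The first statement is
`lim_{δ ↓ 0} liminf_n ℙ(min (N_r(n), N_b(n)) ≥ δ n | both sources in the largest component) = 1`.
The second one is the same fact in terms of the (outer) probability of the complementary event:
for every `ε > 0` there is `δ > 0` such that for all large `n` the conditional probability that
some colour paints fewer than `δ n` vertices is at most `ε`. -/
theorem result (D : Measure ℕ) [IsProbabilityMeasure D] (I : Bool → Measure ℝ)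
    [∀ c, IsProbabilityMeasure (I c)] (L : ℝ → ℝ) (τ α : ℝ)
    (hτ : 3 < τ) (hL : SlowlyVarying L)
    (htail : ∀ x : ℝ, 0 < x → D.real {k : ℕ | x < k} = L x * x ^ (-(τ - 1)))
    (hν : 1 < nu D) (hcont : ∀ c, ∀ x, I c {x} = 0) (hnonneg : ∀ c, I c (Set.Iio 0) = 0)
    (hα : ∀ c, IsMalthusian (nu D) (I c) α) :
    Tendsto (fun δ : ℝ => liminf (fun n : ℕ => coexistProb D I δ n) atTop) (𝓝[>] 0) (𝓝 1) ∧
    ∀ ε : ℝ, 0 < ε → ∃ δ : ℝ, 0 < δ ∧ ∀ᶠ n : ℕ in atTop,
      prob D I n (fun _ ω => BothInGiant ω.1 ω.2.2 ∧
        ∃ c : Bool, (numColour ω.1 ω.2.1 ω.2.2 c : ℝ) < δ * n) ≤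
      ε * prob D I n (fun _ ω => BothInGiant ω.1 ω.2.2) := by
  obtain ⟨h1, h2⟩ := giant_and_bad D I L τ α hτ hL htail hν hcont hnonneg hα
  exact ⟨q2_statement D I L τ α hτ hL htail hν hcont hnonneg hα, bad_ratio D I h1 h2⟩

end Pool.Agent.Results.MP_8afce0_pr.Coexistence
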